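import Mathlib
import Pool.Agent.J4H86.PMH.Core

set_option autoImplicit false

open Matrix
open scoped ENNReal ComplexOrder

namespace Pool.Agent.Results.MP_9bce2c_an.HalfToOne

open Pool.Agent.N95.PM Pool.Agent.J4H86.PMH

theorem combo_posDef {n : ℕ} (A B : Matrix (Fin n) (Fin n) ℂ) (hA : A.PosDef) (hB : B.PosDef)
    (t : ℝ) (h0 : 0 ≤ t) (h1 : t ≤ 1) : (t • B + (1 - t) • A).PosDef := by
  rcases h0.eq_or_lt with h | h
  · subst h
    rw [zero_smul, zero_add, sub_zero, one_smul]
    exact hA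
  · exact (hB.smul h).add_posSemidef (hA.posSemidef.smul (by linarith : 0 ≤ 1 - t))

theorem mpow_posDef {n : ℕ} (X : Matrix (Fin n) (Fin n) ℂ) (hX : X.PosDef) (s : ℝ) :
    (mpow X s).PosDef := by
  have h1 := mpow_posSemidef X hX s
  refine h1.posDef_iff_isUnit.2 ?_
  have h2 : mpow X s * mpow X (-s) = 1 := by
    rw [← mpow_add X hX, add_neg_cancel]
    unfold mpow
    have e : (fun x : ℝ => x ^ (0 : ℝ)) = fun _ => 1 := by
      funext x
      exact Real.rpow_zero x
    rw [e]
    exact cfc_const_one ℝ X hX.1.isSelfAdjoint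
  exact ⟨⟨mpow X s, mpow X (-s), h2, mul_eq_one_comm.1 h2⟩, rfl⟩

/-- the one step inequality for all exponents `1 ≤ r ≤ 2` -/
theorem step {n : ℕ} (q : ℝ≥0∞) (hq : 1 ≤ q) (A B : Matrix (Fin n) (Fin n) ℂ) (hA : A.PosDef)
    (hB : B.PosDef) (r τ : ℝ) (hr1 : 1 ≤ r) (hr2 : r ≤ 2) (h0 : 0 ≤ τ) (h1 : τ ≤ 1) :
    schatten q (mpow (τ • B + (1 - τ) • A) r - mpow A r) ≤ schatten q (mpow B r - mpow A r) := by
  have hR := combo_posDef A B hA hB τ h0 h1
  rcases hr1.eq_or_lt with h | h
  · rw [← h, mpow_one _ hR, mpow_one A hA, mpow_one B hB]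
    have e : τ • B + (1 - τ) • A - A = τ • (B - A) := by module
    rw [e]
    refine (schatten_smul q hq _ (hB.1.sub hA.1) τ h0).trans ?_
    have h2 : 0 ≤ schatten q (B - A) := by
      have : Fact (1 ≤ q) := ⟨hq⟩
      exact norm_nonneg _
    nlinarith
  · rcases hr2.eq_or_lt with h' | h'
    · rw [h', mpow_two _ hR.1, mpow_two A hA.1, mpow_two B hB.1]
      exact half_core q hq B A hB.posSemidef hA.posSemidef τ h0 h1
    · have := core q hq A B hA hB (r - 1) τ ⟨by linarith, by linarith⟩ h0 h1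
      have e : 1 + (r - 1) = r := by ring
      rwa [e] at this

/-- For every exponent `p` in `[1/2, 1]` and every Schatten exponent `q` in `[1, ∞]`, the weighted
power mean with exponent `p` is monotonic with respect to the metric `δ_q`. -/
theorem result : ∀ (p : ℝ) (q : ℝ≥0∞), 1 / 2 ≤ p → p ≤ 1 → 1 ≤ q → PowerMeanMonotonic p q := by
  intro p q hp1 hp2 hq n X Y hX hY s hs t ht hst
  have hp0 : p ≠ 0 := by
    intro h
    rw [h] at hp1
    norm_num at hp1
  have hppos : 0 < p := by linarith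
  show schatten q (powerMean p s X Y - Y) ≤ schatten q (powerMean p t X Y - Y)
  have hA : (mpow Y p).PosDef := mpow_posDef Y hY p
  have hB' : (mpow X p).PosDef := mpow_posDef X hX p
  have hYr : mpow (mpow Y p) (1 / p) = Y := by
    rw [mpow_mpow Y hY, mul_one_div_cancel hp0, mpow_one Y hY]
  have hr1 : 1 ≤ 1 / p := by
    rw [le_div_iff₀ hppos]
    linarith
  have hr2 : 1 / p ≤ 2 := by
    rw [div_le_iff₀ hppos]
    linarith
  rcases hs.1.eq_or_lt with h0 | h0
  · -- `s = 0`
    rw [← h0, powerMean_zero p hp0 X Y hY, sub_self]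
    have h1 : schatten q (0 : Matrix (Fin n) (Fin n) ℂ) ≤ 0 := by
      have h := schatten_smul q hq (0 : Matrix (Fin n) (Fin n) ℂ) Matrix.isHermitian_zero 0 le_rfl
      rwa [zero_smul, zero_mul] at h
    refine h1.trans ?_
    have : Fact (1 ≤ q) := ⟨hq⟩
    exact norm_nonneg _
  · have ht0 : 0 < t := lt_of_lt_of_le h0 hst
    have hB := combo_posDef _ _ hA hB' t ht.1 ht.2
    have h := step q hq (mpow Y p) (t • mpow X p + (1 - t) • mpow Y p) hA hB (1 / p) (s / t) hr1 hr2
      (div_nonneg hs.1 ht.1) ((div_le_one ht0).2 hst)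
    have e : (s / t) • (t • mpow X p + (1 - t) • mpow Y p) + (1 - s / t) • mpow Y p =
        s • mpow X p + (1 - s) • mpow Y p := by
      rw [smul_add, smul_smul, smul_smul, add_assoc, ← add_smul, div_mul_cancel₀ _ ht0.ne']
      congr 2
      field_simp
      ring
    rw [e, hYr] at h
    exact h

end Pool.Agent.Results.MP_9bce2c_an.HalfToOne
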